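import Mathlib

/-!
# The curse of dimensionality for integration on `F_{d,∞}` with non-negative formulas

Problem MP_2335a4_an, Q1 (the case `p = 1`, `q = ∞`).

`2 ^ d * |∑ a_k 1_{t_k < x} - x_1 ⋯ x_d|`, integrated over the cube, is the total variation
distance between the product measure with density `∏ 2 x_i` and a mixture of `N` uniform measures on
the boxes `(t_k, 1]`. A box whose node has a small average coordinate puts an exponentially small
part of its mass on `{∑ x_i ≥ (397/600) d}`, a set of almost full product measure, and a box whose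
node has average coordinate at least `47/150` has exponentially small product measure. So
exponentially many nodes are needed, for every `ε < 1`.
-/

set_option autoImplicit false

open MeasureTheory Set Filter Topology

namespace Pool.Agent.Results.MP_2335a4_an.Curse

/-! ### Definitions used in the statement -/

/-- The unit cube `[0,1]^d`. -/
def cube (d : ℕ) : Set (Fin d → ℝ) := Set.Icc 0 1

/-- The closed unit ball of `F_{d,∞}`: the functions on `[0,1]^d` of the form
`f(x) = ∫_{[x_1,1] × ⋯ × [x_d,1]} g(y) dy` with `g` measurable and `|g| ≤ 1`. Here `g` is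
`(-1)^d` times the mixed derivative `∂^d f / ∂x_1 ⋯ ∂x_d`, and `f` vanishes whenever some
coordinate equals `1`. -/
def unitBall (d : ℕ) : Set ((Fin d → ℝ) → ℝ) :=
  {f | ∃ g : (Fin d → ℝ) → ℝ, Measurable g ∧ (∀ y, |g y| ≤ 1) ∧
    ∀ x ∈ cube d, f x = ∫ y in Set.Icc x 1, g y}

/-- A non-negative quadrature formula with `N` nodes in `[0,1)^d`. -/
structure Formula (N d : ℕ) where
  /-- the nodes -/
  node : Fin N → Fin d → ℝ
  /-- the weights -/
  weight : Fin N → ℝ
  node_nonneg : ∀ k i, 0 ≤ node k i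
  node_lt_one : ∀ k i, node k i < 1
  weight_nonneg : ∀ k, 0 ≤ weight k

/-- The worst-case error `e(A)` of the formula `A(f) = ∑ a_k f(t_k)` over the unit ball of
`F_{d,∞}`. -/
noncomputable def worstError {N d : ℕ} (A : Formula N d) : ℝ :=
  sSup ((fun f : (Fin d → ℝ) → ℝ =>
    |(∫ x in cube d, f x) - ∑ k, A.weight k * f (A.node k)|) '' unitBall d)

/-- `e⁺(N,d)`: the infimum of the worst-case errors of the non-negative formulas with `N` nodes. -/
noncomputable def ePlus (N d : ℕ) : ℝ := ⨅ A : Formula N d, worstError A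

/-- `N⁺(ε,d) = min {N : e⁺(N,d) ≤ ε 2^{-d}}`. (The set is non-empty for `ε > 0`, see
`Nplus_mem` below, so this infimum in `ℕ` is a minimum.) -/
noncomputable def Nplus (ε : ℝ) (d : ℕ) : ℕ := sInf {N : ℕ | ePlus N d ≤ ε * (1 / 2) ^ d}

/-! ### The cube -/

lemma mem_cube {d : ℕ} {x : Fin d → ℝ} : x ∈ cube d ↔ ∀ i, 0 ≤ x i ∧ x i ≤ 1 := by
  simp [cube, Pi.le_def, forall_and]

lemma measurableSet_cube (d : ℕ) : MeasurableSet (cube d) := measurableSet_Icc

/-- Lebesgue measure on the unit interval. -/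
noncomputable def mu1 : Measure ℝ := volume.restrict (Icc 0 1)

instance : IsProbabilityMeasure mu1 := ⟨by simp [mu1]⟩

lemma cube_eq_pi (d : ℕ) : cube d = Set.pi Set.univ (fun _ : Fin d => Icc (0:ℝ) 1) := by
  ext x; simp [cube, Pi.le_def]

lemma restrict_cube (d : ℕ) : (volume : Measure (Fin d → ℝ)).restrict (cube d) =
    Measure.pi (fun _ : Fin d => mu1) := by
  rw [cube_eq_pi, volume_pi, Measure.restrict_pi_pi]
  rfl

instance (d : ℕ) : IsProbabilityMeasure ((volume : Measure (Fin d → ℝ)).restrict (cube d)) := by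
  rw [restrict_cube]; infer_instance

lemma integral_prod_cube {d : ℕ} (f : Fin d → ℝ → ℝ) :
    ∫ x in cube d, ∏ i, f i (x i) = ∏ i, ∫ x in Icc (0:ℝ) 1, f i x := by
  rw [restrict_cube, integral_fintype_prod_eq_prod]
  rfl

lemma integrable_prod_cube {d : ℕ} {f : Fin d → ℝ → ℝ}
    (hf : ∀ i, IntegrableOn (f i) (Icc (0:ℝ) 1)) :
    IntegrableOn (fun x : Fin d → ℝ => ∏ i, f i (x i)) (cube d) := by
  rw [IntegrableOn, restrict_cube]
  exact Integrable.fintype_prod (μ := fun _ : Fin d => mu1) hf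

/-- The step function `1_{t < x}`. -/
noncomputable def st (t x : ℝ) : ℝ := if t < x then 1 else 0

/-- The indicator `1_{t < x}` of the upper box with corner `t`, as a product. -/
noncomputable def K {d : ℕ} (t x : Fin d → ℝ) : ℝ := ∏ i, st (t i) (x i)

lemma st_nonneg (t x : ℝ) : 0 ≤ st t x := by unfold st; split_ifs <;> norm_num
lemma st_le_one (t x : ℝ) : st t x ≤ 1 := by unfold st; split_ifs <;> norm_num

lemma K_nonneg {d : ℕ} (t x : Fin d → ℝ) : 0 ≤ K t x :=
  Finset.prod_nonneg fun _ _ => st_nonneg _ _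
lemma K_le_one {d : ℕ} (t x : Fin d → ℝ) : K t x ≤ 1 :=
  Finset.prod_le_one (fun _ _ => st_nonneg _ _) fun _ _ => st_le_one _ _

lemma K_eq {d : ℕ} (t x : Fin d → ℝ) : K t x = if ∀ i, t i < x i then 1 else 0 := by
  unfold K st
  split_ifs with h
  · exact Finset.prod_eq_one fun i _ => by simp [h i]
  · obtain ⟨i, hi⟩ := not_forall.1 h
    exact Finset.prod_eq_zero (Finset.mem_univ i) (by simp [hi])

lemma measurable_st : Measurable fun p : ℝ × ℝ => st p.1 p.2 := by
  unfold st
  exact Measurable.ite (measurableSet_lt measurable_fst measurable_snd) measurable_const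
    measurable_const

lemma measurable_K {d : ℕ} : Measurable fun p : (Fin d → ℝ) × (Fin d → ℝ) => K p.1 p.2 := by
  unfold K
  refine Finset.measurable_prod _ fun i _ => ?_
  exact measurable_st.comp (g := fun p : ℝ × ℝ => st p.1 p.2)
    (f := fun p : (Fin d → ℝ) × (Fin d → ℝ) => (p.1 i, p.2 i)) (by fun_prop)

/-- one-dimensional integrals against a step function -/
lemma int_st {t : ℝ} (ht0 : 0 ≤ t) (ht1 : t ≤ 1) (h : ℝ → ℝ) :
    ∫ x in Icc (0:ℝ) 1, st t x * h x = ∫ x in t..1, h x := by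
  have e : (fun x => st t x * h x) = (Ioi t).indicator h := by
    ext x
    by_cases hx : t < x
    · simp [st, hx, Set.indicator]
    · simp [st, hx, Set.indicator]
  rw [e, setIntegral_indicator measurableSet_Ioi, intervalIntegral.integral_of_le ht1]
  congr 2
  ext x; simp only [mem_inter_iff, mem_Icc, mem_Ioi, mem_Ioc]
  constructor
  · rintro ⟨⟨_, h2⟩, h3⟩; exact ⟨h3, h2⟩
  · rintro ⟨h1, h2⟩; exact ⟨⟨by linarith, h2⟩, h1⟩

lemma int_st_left {y : ℝ} (hy0 : 0 ≤ y) (hy1 : y ≤ 1) :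
    ∫ x in Icc (0:ℝ) 1, st x y = y := by
  have e : (fun x => st x y) = (Iio y).indicator (fun _ => (1:ℝ)) := by
    ext x
    by_cases hx : x < y
    · simp [st, hx, Set.indicator]
    · simp [st, hx, Set.indicator]
  have e2 : Icc (0:ℝ) 1 ∩ Iio y = Ico 0 y := by
    ext x; simp only [mem_inter_iff, mem_Icc, mem_Iio, mem_Ico]
    constructor
    · rintro ⟨⟨h1, _⟩, h3⟩; exact ⟨h1, h3⟩
    · rintro ⟨h1, h2⟩; exact ⟨⟨h1, by linarith⟩, h2⟩
  rw [e, setIntegral_indicator measurableSet_Iio, e2]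
  simp [hy0]

lemma int_K {d : ℕ} {t : Fin d → ℝ} (ht : t ∈ cube d) :
    ∫ x in cube d, K t x = ∏ i, (1 - t i) := by
  unfold K
  rw [integral_prod_cube (fun i => st (t i))]
  refine Finset.prod_congr rfl fun i _ => ?_
  have := int_st (mem_cube.1 ht i).1 (mem_cube.1 ht i).2 (fun _ => 1)
  simpa using this

lemma int_K_left {d : ℕ} {y : Fin d → ℝ} (hy : y ∈ cube d) :
    ∫ x in cube d, K x y = ∏ i, y i := by
  unfold K
  rw [integral_prod_cube (fun i x => st x (y i))]
  refine Finset.prod_congr rfl fun i _ => ?_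
  exact int_st_left (mem_cube.1 hy i).1 (mem_cube.1 hy i).2

lemma integrable_bdd {d : ℕ} {f : (Fin d → ℝ) → ℝ} (hf : Measurable f) (C : ℝ)
    (hC : ∀ x ∈ cube d, |f x| ≤ C) : IntegrableOn f (cube d) := by
  refine Integrable.of_bound (C := C) hf.aestronglyMeasurable ?_
  exact (ae_restrict_iff' (measurableSet_cube d)).2 (Eventually.of_forall fun x hx => by
    simpa using hC x hx)


/-- The function `∑ a_k 1_{t_k < x}`. -/
noncomputable def G {N d : ℕ} (t : Fin N → Fin d → ℝ) (a : Fin N → ℝ) (x : Fin d → ℝ) : ℝ :=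
  ∑ k, a k * K (t k) x

/-- The generalized `L_1`-discrepancy. -/
noncomputable def disc {N d : ℕ} (t : Fin N → Fin d → ℝ) (a : Fin N → ℝ) : ℝ :=
  ∫ x in cube d, |(∏ i, x i) - G t a x|

lemma measurable_K_right {d : ℕ} (t : Fin d → ℝ) : Measurable (K t) :=
  measurable_K.comp (measurable_const.prodMk measurable_id)

lemma measurable_G {N d : ℕ} (t : Fin N → Fin d → ℝ) (a : Fin N → ℝ) : Measurable (G t a) := by
  unfold G
  exact Finset.measurable_sum _ fun k _ => (measurable_K_right (t k)).const_mul _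

lemma measurable_prodx {d : ℕ} : Measurable fun x : Fin d → ℝ => ∏ i, x i :=
  Finset.measurable_prod _ fun i _ => measurable_pi_apply i

lemma prodx_nonneg {d : ℕ} {x : Fin d → ℝ} (hx : x ∈ cube d) : 0 ≤ ∏ i, x i :=
  Finset.prod_nonneg fun i _ => (mem_cube.1 hx i).1

lemma prodx_le_one {d : ℕ} {x : Fin d → ℝ} (hx : x ∈ cube d) : ∏ i, x i ≤ 1 :=
  Finset.prod_le_one (fun i _ => (mem_cube.1 hx i).1) fun i _ => (mem_cube.1 hx i).2

lemma integrable_K {d : ℕ} (t : Fin d → ℝ) : IntegrableOn (K t) (cube d) :=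
  integrable_bdd (measurable_K_right t) 1 fun x _ => by
    rw [abs_of_nonneg (K_nonneg t x)]; exact K_le_one t x

lemma integrable_prodx {d : ℕ} : IntegrableOn (fun x : Fin d → ℝ => ∏ i, x i) (cube d) :=
  integrable_bdd measurable_prodx 1 fun x hx => by
    rw [abs_of_nonneg (prodx_nonneg hx)]; exact prodx_le_one hx

lemma integrable_G {N d : ℕ} (t : Fin N → Fin d → ℝ) (a : Fin N → ℝ) :
    IntegrableOn (G t a) (cube d) := by
  unfold G
  exact integrable_finsetSum _ fun k _ => (integrable_K (t k)).const_mul _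

lemma integrable_disc {N d : ℕ} (t : Fin N → Fin d → ℝ) (a : Fin N → ℝ) :
    IntegrableOn (fun x => |(∏ i, x i) - G t a x|) (cube d) :=
  (integrable_prodx.sub (integrable_G t a)).abs

/-- pointwise key inequality -/
lemma key_pointwise {N d : ℕ} (t : Fin N → Fin d → ℝ) (a : Fin N → ℝ) (ha : ∀ k, 0 ≤ a k)
    (good : Finset (Fin N)) (lam th : ℝ) (hl : 0 ≤ lam) (x : Fin d → ℝ) (hx : x ∈ cube d) :
    (∏ i, x i) - (∏ i, (x i * Real.exp (lam * (th - x i))))
      - (∑ k ∈ good, ∏ i, (st (t k i) (x i) * x i))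
      - (∑ k ∈ goodᶜ, a k * ∏ i, (st (t k i) (x i) * Real.exp (lam * (x i - th))))
      ≤ |(∏ i, x i) - G t a x| := by
  have hP := prodx_nonneg hx
  have e1 : (∏ i, (x i * Real.exp (lam * (th - x i)))) =
      (∏ i, x i) * Real.exp (lam * (d * th - ∑ i, x i)) := by
    rw [Finset.prod_mul_distrib, ← Real.exp_sum, ← Finset.mul_sum, Finset.sum_sub_distrib]
    simp
  have e2 : ∀ k, ∏ i, (st (t k i) (x i) * x i) = K (t k) x * ∏ i, x i := by
    intro k; rw [Finset.prod_mul_distrib]; rfl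
  have e3 : ∀ k, ∏ i, (st (t k i) (x i) * Real.exp (lam * (x i - th))) =
      K (t k) x * Real.exp (lam * ((∑ i, x i) - d * th)) := by
    intro k
    rw [Finset.prod_mul_distrib, ← Real.exp_sum, ← Finset.mul_sum, Finset.sum_sub_distrib]
    simp [K]
  simp only [e1, e2, e3]
  set P := ∏ i, x i with hPdef
  have hgood_nonneg : 0 ≤ ∑ k ∈ good, K (t k) x * P :=
    Finset.sum_nonneg fun k _ => mul_nonneg (K_nonneg _ _) hP
  have hbad_nonneg : 0 ≤ ∑ k ∈ goodᶜ, a k * (K (t k) x * Real.exp (lam * ((∑ i, x i) - d * th))) :=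
    Finset.sum_nonneg fun k _ => mul_nonneg (ha k) (mul_nonneg (K_nonneg _ _) (Real.exp_nonneg _))
  have hE_nonneg : 0 ≤ P * Real.exp (lam * (d * th - ∑ i, x i)) :=
    mul_nonneg hP (Real.exp_nonneg _)
  by_cases hS : (∑ i, x i) < d * th
  · -- small sum
    have h1 : 1 ≤ Real.exp (lam * (d * th - ∑ i, x i)) :=
      Real.one_le_exp (mul_nonneg hl (by linarith))
    have h2 : P ≤ P * Real.exp (lam * (d * th - ∑ i, x i)) := le_mul_of_one_le_right hP h1
    have := abs_nonneg (P - G t a x)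
    linarith
  · rw [not_lt] at hS
    by_cases hg : ∃ k ∈ good, K (t k) x = 1
    · obtain ⟨k, hk, hk1⟩ := hg
      have h2 : P ≤ ∑ k ∈ good, K (t k) x * P := by
        have : K (t k) x * P ≤ ∑ k ∈ good, K (t k) x * P :=
          Finset.single_le_sum (f := fun k => K (t k) x * P)
            (fun k _ => mul_nonneg (K_nonneg _ _) hP) hk
        rw [hk1, one_mul] at this
        exact this
      have := abs_nonneg (P - G t a x)
      linarith
    · have hg0 : ∀ k ∈ good, K (t k) x = 0 := by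
        intro k hk
        by_contra hne
        apply hg
        refine ⟨k, hk, ?_⟩
        rw [K_eq] at hne ⊢
        split_ifs with h
        · rfl
        · simp [h] at hne
      have hG : G t a x = ∑ k ∈ goodᶜ, a k * K (t k) x := by
        unfold G
        rw [← Finset.sum_add_sum_compl good]
        rw [Finset.sum_eq_zero (fun k hk => by rw [hg0 k hk, mul_zero]), zero_add]
      have h1 : 1 ≤ Real.exp (lam * ((∑ i, x i) - d * th)) :=
        Real.one_le_exp (mul_nonneg hl (by linarith))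
      have h3 : G t a x ≤ ∑ k ∈ goodᶜ, a k * (K (t k) x * Real.exp (lam * ((∑ i, x i) - d * th))) := by
        rw [hG]
        refine Finset.sum_le_sum fun k _ => ?_
        exact mul_le_mul_of_nonneg_left (le_mul_of_one_le_right (K_nonneg _ _) h1) (ha k)
      have := le_abs_self (P - G t a x)
      linarith


lemma exp_neg_le_quad {y : ℝ} (hy : 0 ≤ y) : Real.exp (-y) ≤ 1 - y + y ^ 2 / 2 := by
  have h1 := Real.quadratic_le_exp_of_nonneg hy
  have hpos : 0 < 1 + y + y ^ 2 / 2 := by positivity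
  rw [Real.exp_neg]
  have h2 : (Real.exp y)⁻¹ ≤ (1 + y + y ^ 2 / 2)⁻¹ := inv_anti₀ hpos h1
  refine h2.trans ?_
  rw [inv_le_iff_one_le_mul₀ hpos]
  nlinarith [sq_nonneg (y ^ 2)]

lemma int_a {lam th : ℝ} (hl : 0 ≤ lam) :
    ∫ x in Icc (0:ℝ) 1, x * Real.exp (lam * (th - x)) ≤
      (1 / 2) * Real.exp (lam * th - 2 * lam / 3 + lam ^ 2 / 4) := by
  rw [integral_Icc_eq_integral_Ioc, ← intervalIntegral.integral_of_le zero_le_one]
  have h1 : ∫ x in (0:ℝ)..1, x * Real.exp (lam * (th - x)) ≤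
      ∫ x in (0:ℝ)..1, Real.exp (lam * th) * (x - lam * x ^ 2 + lam ^ 2 / 2 * x ^ 3) := by
    refine intervalIntegral.integral_mono_on zero_le_one
      (Continuous.intervalIntegrable (by fun_prop) _ _)
      (Continuous.intervalIntegrable (by fun_prop) _ _) fun x hx => ?_
    have e : lam * (th - x) = lam * th + -(lam * x) := by ring
    rw [e, Real.exp_add]
    have h := exp_neg_le_quad (mul_nonneg hl hx.1)
    have h' : x * Real.exp (-(lam * x)) ≤ x - lam * x ^ 2 + lam ^ 2 / 2 * x ^ 3 := by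
      have := mul_le_mul_of_nonneg_left h hx.1
      nlinarith
    calc x * (Real.exp (lam * th) * Real.exp (-(lam * x)))
        = Real.exp (lam * th) * (x * Real.exp (-(lam * x))) := by ring
      _ ≤ _ := mul_le_mul_of_nonneg_left h' (Real.exp_nonneg _)
  have h2 : ∫ x in (0:ℝ)..1, Real.exp (lam * th) * (x - lam * x ^ 2 + lam ^ 2 / 2 * x ^ 3) =
      Real.exp (lam * th) * (1 / 2 - lam / 3 + lam ^ 2 / 8) := by
    rw [intervalIntegral.integral_const_mul, intervalIntegral.integral_add, intervalIntegral.integral_sub,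
      intervalIntegral.integral_const_mul, intervalIntegral.integral_const_mul, integral_pow,
      integral_pow, integral_id]
    · norm_num; ring_nf
    all_goals exact Continuous.intervalIntegrable (by fun_prop) _ _
  rw [h2] at h1
  refine h1.trans ?_
  have h3 : (1 - 2 * lam / 3 + lam ^ 2 / 4) ≤ Real.exp (- 2 * lam / 3 + lam ^ 2 / 4) := by
    have := Real.add_one_le_exp (- 2 * lam / 3 + lam ^ 2 / 4)
    linarith
  have e : lam * th - 2 * lam / 3 + lam ^ 2 / 4 = lam * th + (- 2 * lam / 3 + lam ^ 2 / 4) := by ring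
  rw [e, Real.exp_add]
  calc Real.exp (lam * th) * (1 / 2 - lam / 3 + lam ^ 2 / 8)
      = 1 / 2 * (Real.exp (lam * th) * (1 - 2 * lam / 3 + lam ^ 2 / 4)) := by ring
    _ ≤ _ := by
      refine mul_le_mul_of_nonneg_left ?_ (by norm_num)
      exact mul_le_mul_of_nonneg_left h3 (Real.exp_nonneg _)

lemma int_c {lam th t : ℝ} (hl : 0 ≤ lam) (hl1 : lam ≤ 1) (ht0 : 0 ≤ t) (ht1 : t ≤ 1) :
    ∫ x in t..1, Real.exp (lam * (x - th)) ≤
      (1 - t) * Real.exp (lam * ((1 + t) / 2 - th) + lam ^ 2 / 12) := by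
  set m := (1 + t) / 2 with hm
  have h1 : ∫ x in t..1, Real.exp (lam * (x - th)) ≤
      ∫ x in t..1, Real.exp (lam * (m - th)) * (1 + lam * (x - m) + lam ^ 2 * (x - m) ^ 2) := by
    refine intervalIntegral.integral_mono_on ht1
      (Continuous.intervalIntegrable (by fun_prop) _ _)
      (Continuous.intervalIntegrable (by fun_prop) _ _) fun x hx => ?_
    have e : lam * (x - th) = lam * (m - th) + lam * (x - m) := by ring
    rw [e, Real.exp_add]
    refine mul_le_mul_of_nonneg_left ?_ (Real.exp_nonneg _)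
    have habs : |lam * (x - m)| ≤ 1 := by
      rw [abs_mul, abs_of_nonneg hl]
      have : |x - m| ≤ 1 := by
        rw [abs_le]; constructor <;> · rw [hm]; linarith [hx.1, hx.2]
      calc lam * |x - m| ≤ 1 * 1 := mul_le_mul hl1 this (abs_nonneg _) zero_le_one
        _ = 1 := one_mul 1
    have := Real.abs_exp_sub_one_sub_id_le habs
    have := (abs_le.1 this).2
    nlinarith
  have h2 : ∫ x in t..1, Real.exp (lam * (m - th)) * (1 + lam * (x - m) + lam ^ 2 * (x - m) ^ 2) =
      Real.exp (lam * (m - th)) * ((1 - t) + lam ^ 2 * (1 - t) ^ 3 / 12) := by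
    have e : ∀ x, (1 + lam * (x - m) + lam ^ 2 * (x - m) ^ 2) =
      (1 - lam * m + lam ^ 2 * m ^ 2) + (lam - 2 * lam ^ 2 * m) * x + lam ^ 2 * x ^ 2 := by
      intro x; ring
    simp_rw [e]
    rw [intervalIntegral.integral_const_mul, intervalIntegral.integral_add, intervalIntegral.integral_add,
      intervalIntegral.integral_const_mul, intervalIntegral.integral_const_mul, integral_pow,
      integral_id, intervalIntegral.integral_const]
    · rw [hm]; simp only [smul_eq_mul]; push_cast; ring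
    all_goals exact Continuous.intervalIntegrable (by fun_prop) _ _
  rw [h2] at h1
  refine h1.trans ?_
  rw [Real.exp_add]
  have h3 : 1 + lam ^ 2 / 12 ≤ Real.exp (lam ^ 2 / 12) := by
    have := Real.add_one_le_exp (lam ^ 2 / 12); linarith
  have h4 : (1 - t) + lam ^ 2 * (1 - t) ^ 3 / 12 ≤ (1 - t) * (1 + lam ^ 2 / 12) := by
    have : (1 - t) ^ 3 ≤ (1 - t) := by
      have h0 : 0 ≤ 1 - t := by linarith
      have : (1-t)^2 ≤ 1 := by nlinarith
      nlinarith
    nlinarith [sq_nonneg lam]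
  calc Real.exp (lam * (m - th)) * ((1 - t) + lam ^ 2 * (1 - t) ^ 3 / 12)
      ≤ Real.exp (lam * (m - th)) * ((1 - t) * Real.exp (lam ^ 2 / 12)) := by
        refine mul_le_mul_of_nonneg_left ?_ (Real.exp_nonneg _)
        exact h4.trans (mul_le_mul_of_nonneg_left h3 (by linarith))
    _ = _ := by ring

lemma int_b {t : ℝ} : ∫ x in t..1, x = (1 - t ^ 2) / 2 := by
  rw [integral_id]; ring


lemma int_prodx (d : ℕ) : ∫ x in cube d, ∏ i, x i = (1 / 2 : ℝ) ^ d := by
  have := integral_prod_cube (d := d) (fun _ x => x)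
  rw [this, integral_Icc_eq_integral_Ioc, ← intervalIntegral.integral_of_le zero_le_one, integral_id]
  simp

lemma int_G {N d : ℕ} {t : Fin N → Fin d → ℝ} (ht : ∀ k, t k ∈ cube d) (a : Fin N → ℝ) :
    ∫ x in cube d, G t a x = ∑ k, a k * ∏ i, (1 - t k i) := by
  unfold G
  rw [integral_finsetSum _ fun k _ => (integrable_K (t k)).const_mul _]
  refine Finset.sum_congr rfl fun k _ => ?_
  rw [integral_const_mul, int_K (ht k)]

lemma sum_sq_ge {d : ℕ} {t : Fin d → ℝ} {c : ℝ} (hc : 0 ≤ c) (h : c * d ≤ ∑ i, t i) :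
    d * c ^ 2 ≤ ∑ i, t i ^ 2 := by
  have : ∀ i, 2 * c * t i - c ^ 2 ≤ t i ^ 2 := fun i => by nlinarith [sq_nonneg (t i - c)]
  have h2 : ∑ i, (2 * c * t i - c ^ 2) ≤ ∑ i, t i ^ 2 := Finset.sum_le_sum fun i _ => this i
  rw [Finset.sum_sub_distrib, ← Finset.mul_sum] at h2
  simp at h2
  nlinarith

lemma good_box {d : ℕ} {t : Fin d → ℝ} (ht : t ∈ cube d) {c : ℝ} (hc : 0 ≤ c)
    (h : c * d ≤ ∑ i, t i) :
    ∫ x in cube d, ∏ i, (st (t i) (x i) * x i) ≤ (1 / 2) ^ d * Real.exp (-(d * c ^ 2)) := by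
  rw [integral_prod_cube (fun i x => st (t i) x * x)]
  have e : ∀ i, ∫ x in Icc (0:ℝ) 1, st (t i) x * x = (1 / 2) * (1 - t i ^ 2) := by
    intro i
    rw [int_st (mem_cube.1 ht i).1 (mem_cube.1 ht i).2 (fun x => x), int_b]; ring
  simp only [e]
  rw [Finset.prod_mul_distrib]
  simp only [Finset.prod_const, Finset.card_univ, Fintype.card_fin]
  refine mul_le_mul_of_nonneg_left ?_ (by positivity)
  have h1 : ∏ i, (1 - t i ^ 2) ≤ ∏ i, Real.exp (-(t i ^ 2)) := by
    refine Finset.prod_le_prod (fun i _ => ?_) fun i _ => ?_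
    · have h0 := (mem_cube.1 ht i).1
      have h1 := (mem_cube.1 ht i).2
      nlinarith
    · have := Real.add_one_le_exp (-(t i ^ 2)); linarith
  refine h1.trans ?_
  rw [← Real.exp_sum]
  refine Real.exp_le_exp.2 ?_
  rw [Finset.sum_neg_distrib]
  have := sum_sq_ge hc h
  linarith

lemma bad_box {d : ℕ} {t : Fin d → ℝ} (ht : t ∈ cube d) {lam th c : ℝ} (hl : 0 ≤ lam)
    (hl1 : lam ≤ 1) (h : ∑ i, t i ≤ c * d) :
    ∫ x in cube d, ∏ i, (st (t i) (x i) * Real.exp (lam * (x i - th))) ≤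
      (∏ i, (1 - t i)) * Real.exp (d * (lam * ((1 + c) / 2 - th) + lam ^ 2 / 12)) := by
  rw [integral_prod_cube (fun i x => st (t i) x * Real.exp (lam * (x - th)))]
  have h1 : ∏ i, ∫ x in Icc (0:ℝ) 1, st (t i) x * Real.exp (lam * (x - th)) ≤
      ∏ i, ((1 - t i) * Real.exp (lam * ((1 + t i) / 2 - th) + lam ^ 2 / 12)) := by
    refine Finset.prod_le_prod (fun i _ => ?_) fun i _ => ?_
    · exact integral_nonneg fun x => mul_nonneg (st_nonneg _ _) (Real.exp_nonneg _)
    · rw [int_st (mem_cube.1 ht i).1 (mem_cube.1 ht i).2]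
      exact int_c hl hl1 (mem_cube.1 ht i).1 (mem_cube.1 ht i).2
  refine h1.trans ?_
  rw [Finset.prod_mul_distrib, ← Real.exp_sum]
  refine mul_le_mul_of_nonneg_left (Real.exp_le_exp.2 ?_) (Finset.prod_nonneg fun i _ => by
    linarith [(mem_cube.1 ht i).2])
  have e : ∑ i, (lam * ((1 + t i) / 2 - th) + lam ^ 2 / 12) =
      lam / 2 * ∑ i, t i + d * (lam * (1 / 2 - th) + lam ^ 2 / 12) := by
    have : ∀ i, (lam * ((1 + t i) / 2 - th) + lam ^ 2 / 12) =
      lam / 2 * t i + (lam * (1 / 2 - th) + lam ^ 2 / 12) := fun i => by ring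
    simp only [this]
    rw [Finset.sum_add_distrib, ← Finset.mul_sum]
    simp
    ring
  rw [e]
  have : lam / 2 * ∑ i, t i ≤ lam / 2 * (c * d) := mul_le_mul_of_nonneg_left h (by linarith)
  linarith

lemma integrableOn_cont {f : ℝ → ℝ} (hf : Continuous f) : IntegrableOn f (Icc (0:ℝ) 1) :=
  hf.continuousOn.integrableOn_compact isCompact_Icc

lemma integrableOn_st {f : ℝ → ℝ} (hf : Continuous f) (t : ℝ) :
    IntegrableOn (fun x => st t x * f x) (Icc (0:ℝ) 1) := by
  have e : (fun x => st t x * f x) = (Ioi t).indicator f := by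
    ext x
    by_cases hx : t < x
    · simp [st, hx, Set.indicator]
    · simp [st, hx, Set.indicator]
  rw [e]
  exact (integrableOn_cont hf).indicator measurableSet_Ioi

/-- The main quantitative lower bound for the discrepancy. -/
theorem main_bound {N d : ℕ} {t : Fin N → Fin d → ℝ} (ht : ∀ k, t k ∈ cube d) {a : Fin N → ℝ}
    (ha : ∀ k, 0 ≤ a k) :
    (1 / 2 : ℝ) ^ d * (1 - 2 * Real.exp (-(d / 40000 : ℝ)) - N * Real.exp (-(d * (47 / 150 : ℝ) ^ 2)))
      ≤ disc t a * (1 + Real.exp (-(d / 40000 : ℝ))) := by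
  classical
  set c : ℝ := 47 / 150 with hc
  set lam : ℝ := 1 / 100 with hlam
  set th : ℝ := 397 / 600 with hth
  set good : Finset (Fin N) := Finset.univ.filter fun k => c * d ≤ ∑ i, t k i with hgood
  set α := Real.exp (-(d / 40000 : ℝ)) with hα
  set β := Real.exp (-(d * c ^ 2)) with hβ
  -- integrability of the pieces
  have i1 : IntegrableOn (fun x : Fin d → ℝ => ∏ i, x i) (cube d) := integrable_prodx
  have i2 : IntegrableOn (fun x : Fin d → ℝ => ∏ i, (x i * Real.exp (lam * (th - x i)))) (cube d) :=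
    integrable_prod_cube (f := fun _ x => x * Real.exp (lam * (th - x)))
      fun _ => integrableOn_cont (by fun_prop)
  have i3 : ∀ k, IntegrableOn (fun x : Fin d → ℝ => ∏ i, (st (t k i) (x i) * x i)) (cube d) :=
    fun k => integrable_prod_cube (f := fun i x => st (t k i) x * x)
      fun i => integrableOn_st (f := fun x => x) continuous_id (t k i)
  have i4 : ∀ k, IntegrableOn (fun x : Fin d → ℝ =>
      ∏ i, (st (t k i) (x i) * Real.exp (lam * (x i - th)))) (cube d) :=
    fun k => integrable_prod_cube (f := fun i x => st (t k i) x * Real.exp (lam * (x - th)))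
      fun i => integrableOn_st (f := fun x => Real.exp (lam * (x - th))) (by fun_prop) (t k i)
  have i3' : IntegrableOn (fun x : Fin d → ℝ => ∑ k ∈ good, ∏ i, (st (t k i) (x i) * x i)) (cube d) :=
    integrable_finsetSum _ fun k _ => i3 k
  have i4' : IntegrableOn (fun x : Fin d → ℝ => ∑ k ∈ goodᶜ,
      a k * ∏ i, (st (t k i) (x i) * Real.exp (lam * (x i - th)))) (cube d) :=
    integrable_finsetSum _ fun k _ => (i4 k).const_mul _
  have i12 : IntegrableOn (fun x : Fin d → ℝ => (∏ i, x i)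
      - (∏ i, (x i * Real.exp (lam * (th - x i))))) (cube d) := i1.sub i2
  have i123 : IntegrableOn (fun x : Fin d → ℝ => (∏ i, x i)
      - (∏ i, (x i * Real.exp (lam * (th - x i))))
      - (∑ k ∈ good, ∏ i, (st (t k i) (x i) * x i))) (cube d) := i12.sub i3'
  have key : ∫ x in cube d, ((∏ i, x i) - (∏ i, (x i * Real.exp (lam * (th - x i))))
      - (∑ k ∈ good, ∏ i, (st (t k i) (x i) * x i))
      - (∑ k ∈ goodᶜ, a k * ∏ i, (st (t k i) (x i) * Real.exp (lam * (x i - th))))) ≤ disc t a := by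
    refine setIntegral_mono_on (i123.sub i4') (integrable_disc t a)
      (measurableSet_cube d) fun x hx => ?_
    exact key_pointwise t a ha good lam th (by norm_num [hlam]) x hx
  rw [integral_sub i123 i4', integral_sub i12 i3', integral_sub i1 i2,
    int_prodx, integral_finsetSum _ fun k _ => i3 k,
    integral_finsetSum _ fun k _ => (i4 k).const_mul _] at key
  simp only [integral_const_mul] at key
  -- bound each piece
  have b2 : ∫ x in cube d, ∏ i, (x i * Real.exp (lam * (th - x i))) ≤ (1 / 2) ^ d * α := by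
    rw [integral_prod_cube (fun _ x => x * Real.exp (lam * (th - x)))]
    simp only [Finset.prod_const, Finset.card_univ, Fintype.card_fin]
    have h0 : 0 ≤ ∫ x in Icc (0:ℝ) 1, x * Real.exp (lam * (th - x)) :=
      setIntegral_nonneg measurableSet_Icc fun x hx => mul_nonneg hx.1 (Real.exp_nonneg _)
    have h1 := int_a (lam := lam) (th := th) (by norm_num [hlam])
    have h2 := pow_le_pow_left₀ h0 h1 d
    refine h2.trans (le_of_eq ?_)
    rw [mul_pow, ← Real.exp_nat_mul, hα]
    congr 2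
    rw [hlam, hth]; ring
  have b3 : ∑ k ∈ good, ∫ x in cube d, ∏ i, (st (t k i) (x i) * x i) ≤ (1 / 2) ^ d * (N * β) := by
    have h1 : ∀ k ∈ good, ∫ x in cube d, ∏ i, (st (t k i) (x i) * x i) ≤ (1 / 2) ^ d * β := by
      intro k hk
      refine good_box (ht k) (by norm_num [hc]) ?_
      simpa [hgood] using hk
    have h2 := Finset.sum_le_sum h1
    refine h2.trans ?_
    rw [Finset.sum_const, nsmul_eq_mul]
    have h3 : (good.card : ℝ) ≤ N := by
      have := Finset.card_le_univ good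
      simp only [Fintype.card_fin] at this
      exact_mod_cast this
    have h4 : 0 ≤ (1 / 2 : ℝ) ^ d * β := by positivity
    calc (good.card : ℝ) * ((1 / 2) ^ d * β) ≤ N * ((1 / 2) ^ d * β) :=
          mul_le_mul_of_nonneg_right h3 h4
      _ = _ := by ring
  have hprod_nonneg : ∀ k, 0 ≤ ∏ i, (1 - t k i) := fun k => Finset.prod_nonneg fun i _ => by
    linarith [(mem_cube.1 (ht k) i).2]
  have hM : ∑ k, a k * ∏ i, (1 - t k i) ≤ (1 / 2) ^ d + disc t a := by
    rw [← int_G ht a, ← int_prodx d, disc, ← integral_add i1 (integrable_disc t a)]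
    refine setIntegral_mono_on (integrable_G t a) (i1.add (integrable_disc t a))
      (measurableSet_cube d) fun x _ => ?_
    have := neg_abs_le ((∏ i, x i) - G t a x)
    linarith
  have b4 : ∑ k ∈ goodᶜ, a k * ∫ x in cube d, ∏ i, (st (t k i) (x i) * Real.exp (lam * (x i - th)))
      ≤ ((1 / 2) ^ d + disc t a) * α := by
    have h1 : ∀ k ∈ goodᶜ, a k * ∫ x in cube d, ∏ i, (st (t k i) (x i) * Real.exp (lam * (x i - th)))
        ≤ (a k * ∏ i, (1 - t k i)) * α := by
      intro k hk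
      have hk' : ∑ i, t k i ≤ c * d := by
        simp [hgood] at hk
        exact hk.le
      have h2 := bad_box (ht k) (lam := lam) (th := th) (by norm_num [hlam]) (by norm_num [hlam]) hk'
      have h3 : Real.exp (d * (lam * ((1 + c) / 2 - th) + lam ^ 2 / 12)) ≤ α := by
        refine Real.exp_le_exp.2 ?_
        rw [hlam, hth, hc]
        have : (0:ℝ) ≤ d := Nat.cast_nonneg d
        nlinarith
      calc a k * _ ≤ a k * ((∏ i, (1 - t k i)) * α) := by
            refine mul_le_mul_of_nonneg_left (h2.trans ?_) (ha k)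
            exact mul_le_mul_of_nonneg_left h3 (hprod_nonneg k)
        _ = _ := by ring
    refine (Finset.sum_le_sum h1).trans ?_
    rw [← Finset.sum_mul]
    refine mul_le_mul_of_nonneg_right ?_ (Real.exp_nonneg _)
    refine le_trans ?_ hM
    exact Finset.sum_le_sum_of_subset_of_nonneg (Finset.subset_univ _)
      fun k _ _ => mul_nonneg (ha k) (hprod_nonneg k)
  nlinarith [key, b2, b3, b4]


/-! ### The worst-case error over `F_{d,∞}` is the discrepancy -/

lemma int_Icc_eq {d : ℕ} {x : Fin d → ℝ} (hx : x ∈ cube d) (g : (Fin d → ℝ) → ℝ) :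
    ∫ y in Set.Icc x 1, g y = ∫ y in cube d, K x y * g y := by
  have h1 : ∫ y in Set.Icc x 1, g y = ∫ y in Set.pi Set.univ (fun i => Ioc (x i) 1), g y := by
    refine (setIntegral_congr_set ?_).symm
    exact Measure.univ_pi_Ioc_ae_eq_Icc
  have e : (fun y => K x y * g y) = ({y : Fin d → ℝ | ∀ i, x i < y i}).indicator g := by
    ext y
    rw [K_eq]
    by_cases h : ∀ i, x i < y i
    · simp [h, Set.indicator]
    · rw [if_neg h, zero_mul, Set.indicator_of_notMem]
      exact h
  have hm : MeasurableSet {y : Fin d → ℝ | ∀ i, x i < y i} := by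
    have : {y : Fin d → ℝ | ∀ i, x i < y i} = ⋂ i, {y | x i < y i} := by ext; simp
    rw [this]
    exact MeasurableSet.iInter fun i => measurableSet_lt measurable_const (measurable_pi_apply i)
  rw [h1, e, setIntegral_indicator hm]
  congr 2
  ext y
  simp only [Set.mem_pi, Set.mem_univ, true_implies, mem_Ioc, mem_inter_iff, mem_cube, Set.mem_ofPred_eq]
  constructor
  · intro h
    exact ⟨fun i => ⟨by linarith [(mem_cube.1 hx i).1, (h i).1], (h i).2⟩, fun i => (h i).1⟩
  · rintro ⟨h, h'⟩ i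
    exact ⟨h' i, (h i).2⟩

lemma error_eq {N d : ℕ} {t : Fin N → Fin d → ℝ} (ht : ∀ k, t k ∈ cube d) (a : Fin N → ℝ)
    {f : (Fin d → ℝ) → ℝ} {g : (Fin d → ℝ) → ℝ} (hg : Measurable g) (hg1 : ∀ y, |g y| ≤ 1)
    (hf : ∀ x ∈ cube d, f x = ∫ y in Set.Icc x 1, g y) :
    (∫ x in cube d, f x) - ∑ k, a k * f (t k) =
      ∫ y in cube d, g y * ((∏ i, y i) - G t a y) := by
  have h1 : ∫ x in cube d, f x = ∫ y in cube d, g y * ∏ i, y i := by
    have e1 : ∫ x in cube d, f x = ∫ x in cube d, ∫ y in cube d, K x y * g y := by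
      refine setIntegral_congr_fun (measurableSet_cube d) fun x hx => ?_
      rw [hf x hx, int_Icc_eq hx]
    rw [e1, integral_integral_swap]
    · refine setIntegral_congr_fun (measurableSet_cube d) fun y hy => ?_
      rw [integral_mul_const, int_K_left hy, mul_comm]
    · refine Integrable.of_bound (C := 1) ?_ ?_
      · exact (measurable_K.mul (hg.comp measurable_snd)).aestronglyMeasurable
      · refine Eventually.of_forall fun p => ?_
        simp only [Function.uncurry, norm_mul, Real.norm_eq_abs]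
        rw [abs_of_nonneg (K_nonneg _ _)]
        calc K p.1 p.2 * |g p.2| ≤ 1 * 1 :=
              mul_le_mul (K_le_one _ _) (hg1 _) (abs_nonneg _) zero_le_one
          _ = 1 := one_mul 1
  have hgi : ∀ h : (Fin d → ℝ) → ℝ, IntegrableOn h (cube d) →
      IntegrableOn (fun y => g y * h y) (cube d) := by
    intro h hh
    exact Integrable.bdd_mul (c := 1) hh hg.aestronglyMeasurable
      (Eventually.of_forall fun y => by simpa using hg1 y)
  have h2 : ∑ k, a k * f (t k) = ∫ y in cube d, g y * G t a y := by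
    have e2 : ∀ y, g y * G t a y = ∑ k, a k * (g y * K (t k) y) := by
      intro y; unfold G; rw [Finset.mul_sum]; exact Finset.sum_congr rfl fun k _ => by ring
    simp only [e2]
    rw [integral_finsetSum _ fun k _ => (hgi _ (integrable_K (t k))).const_mul _]
    refine Finset.sum_congr rfl fun k _ => ?_
    rw [integral_const_mul, hf _ (ht k), int_Icc_eq (ht k)]
    congr 1
    refine integral_congr_ae (Eventually.of_forall fun y => ?_)
    simp only
    ring
  rw [h1, h2, ← integral_sub (hgi _ integrable_prodx) (hgi _ (integrable_G t a))]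
  refine integral_congr_ae (Eventually.of_forall fun y => ?_)
  simp only
  ring

theorem isGreatest_disc {N d : ℕ} {t : Fin N → Fin d → ℝ} (ht : ∀ k, t k ∈ cube d)
    (a : Fin N → ℝ) :
    IsGreatest ((fun f : (Fin d → ℝ) → ℝ =>
      |(∫ x in cube d, f x) - ∑ k, a k * f (t k)|) '' unitBall d) (disc t a) := by
  constructor
  · set g : (Fin d → ℝ) → ℝ := fun y => if 0 ≤ (∏ i, y i) - G t a y then 1 else -1 with hgdef
    have hgm : Measurable g :=
      Measurable.ite (measurableSet_le measurable_const (measurable_prodx.sub (measurable_G t a)))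
        measurable_const measurable_const
    have hg1 : ∀ y, |g y| ≤ 1 := by
      intro y; simp only [hgdef]; split_ifs <;> norm_num
    refine ⟨fun x => ∫ y in Set.Icc x 1, g y, ⟨g, hgm, hg1, fun x _ => rfl⟩, ?_⟩
    simp only
    rw [error_eq ht a (f := fun x => ∫ y in Set.Icc x 1, g y) hgm hg1 (fun x _ => rfl)]
    have e : ∀ y, g y * ((∏ i, y i) - G t a y) = |(∏ i, y i) - G t a y| := by
      intro y
      simp only [hgdef]
      split_ifs with h
      · rw [one_mul, abs_of_nonneg h]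
      · rw [abs_of_neg (not_le.1 h)]; ring
    simp only [e]
    exact abs_of_nonneg (integral_nonneg fun y => abs_nonneg _)
  · rintro _ ⟨f, ⟨g, hgm, hg1, hf⟩, rfl⟩
    simp only
    rw [error_eq ht a hgm hg1 hf]
    refine (abs_integral_le_integral_abs).trans ?_
    refine setIntegral_mono_on ?_ (integrable_disc t a) (measurableSet_cube d) fun y _ => ?_
    · refine Integrable.abs ?_
      exact Integrable.bdd_mul (c := 1) (integrable_prodx.sub (integrable_G t a))
        hgm.aestronglyMeasurable (Eventually.of_forall fun y => by simpa using hg1 y)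
    · rw [abs_mul]
      exact mul_le_of_le_one_left (abs_nonneg _) (hg1 y)


/-! ### Formulas, `e⁺(N,d)` and `N⁺(ε,d)` -/

lemma Formula.node_mem {N d : ℕ} (A : Formula N d) (k : Fin N) : A.node k ∈ cube d :=
  mem_cube.2 fun i => ⟨A.node_nonneg k i, (A.node_lt_one k i).le⟩

lemma worstError_eq {N d : ℕ} (A : Formula N d) : worstError A = disc A.node A.weight :=
  (isGreatest_disc A.node_mem A.weight).csSup_eq

lemma disc_nonneg {N d : ℕ} (t : Fin N → Fin d → ℝ) (a : Fin N → ℝ) : 0 ≤ disc t a :=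
  integral_nonneg fun _ => abs_nonneg _

instance (N d : ℕ) : Nonempty (Formula N d) :=
  ⟨⟨fun _ _ => 0, fun _ => 0, fun _ _ => le_rfl, fun _ _ => zero_lt_one, fun _ => le_rfl⟩⟩

lemma ePlus_le {N d : ℕ} (A : Formula N d) : ePlus N d ≤ disc A.node A.weight := by
  rw [← worstError_eq]
  refine ciInf_le ⟨0, ?_⟩ A
  rintro _ ⟨B, rfl⟩
  simp only
  rw [worstError_eq]
  exact disc_nonneg _ _

lemma bound_ePlus (N d : ℕ) :
    (1 / 2 : ℝ) ^ d * (1 - 2 * Real.exp (-(d / 40000 : ℝ)) - N * Real.exp (-(d * (47 / 150 : ℝ) ^ 2)))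
      ≤ ePlus N d * (1 + Real.exp (-(d / 40000 : ℝ))) := by
  have hpos : 0 < 1 + Real.exp (-(d / 40000 : ℝ)) := by positivity
  rw [← div_le_iff₀ hpos]
  refine le_ciInf fun A => ?_
  rw [worstError_eq, div_le_iff₀ hpos]
  exact main_bound A.node_mem A.weight_nonneg

/-! ### Convergence of the grid formula, so that `N⁺(ε,d)` is a genuine minimum -/

lemma abs_prod_sub_prod_le {ι : Type*} (s : Finset ι) (a b : ι → ℝ)
    (ha : ∀ i, 0 ≤ a i ∧ a i ≤ 1) (hb : ∀ i, 0 ≤ b i ∧ b i ≤ 1) :
    |∏ i ∈ s, a i - ∏ i ∈ s, b i| ≤ ∑ i ∈ s, |a i - b i| := by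
  classical
  induction s using Finset.induction_on with
  | empty => simp
  | insert j s hj ih =>
    rw [Finset.prod_insert hj, Finset.prod_insert hj, Finset.sum_insert hj]
    have e : a j * ∏ i ∈ s, a i - b j * ∏ i ∈ s, b i =
        (a j - b j) * ∏ i ∈ s, a i + b j * (∏ i ∈ s, a i - ∏ i ∈ s, b i) := by ring
    rw [e]
    refine (abs_add_le _ _).trans (add_le_add ?_ ?_)
    · rw [abs_mul]
      refine mul_le_of_le_one_right (abs_nonneg _) ?_
      rw [abs_of_nonneg (Finset.prod_nonneg fun i _ => (ha i).1)]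
      exact Finset.prod_le_one (fun i _ => (ha i).1) fun i _ => (ha i).2
    · rw [abs_mul, abs_of_nonneg (hb j).1]
      exact (mul_le_of_le_one_left (abs_nonneg _) (hb j).2).trans ih

lemma grid_sum {m : ℕ} (hm : 0 < m) {x : ℝ} (hx1 : x ≤ 1) :
    ∑ j : Fin m, (1 / m : ℝ) * st ((j : ℕ) / m : ℝ) x = (⌈m * x⌉₊ : ℝ) / m := by
  have hm' : (0:ℝ) < m := by exact_mod_cast hm
  rw [← Finset.mul_sum]
  have e : ∀ j : Fin m, st ((j : ℕ) / m : ℝ) x = if (j : ℕ) < ⌈m * x⌉₊ then (1:ℝ) else 0 := by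
    intro j
    unfold st
    have : ((j : ℕ) / m : ℝ) < x ↔ (j : ℕ) < ⌈m * x⌉₊ := by
      rw [Nat.lt_ceil, div_lt_iff₀ hm', mul_comm x]
    simp only [this]
  simp only [e]
  rw [Fin.sum_univ_eq_sum_range (fun j => if j < ⌈m * x⌉₊ then (1:ℝ) else 0) m]
  have hc : ⌈m * x⌉₊ ≤ m := by
    rw [Nat.ceil_le]; nlinarith
  have e2 : (Finset.range m).filter (fun j => j < ⌈m * x⌉₊) = Finset.range ⌈m * x⌉₊ := by
    ext j; simp only [Finset.mem_filter, Finset.mem_range]
    constructor
    · exact fun h => h.2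
    · exact fun h => ⟨lt_of_lt_of_le h hc, h⟩
  rw [← Finset.sum_filter, e2]
  simp
  ring

lemma grid_close {m : ℕ} (hm : 0 < m) {x : ℝ} (hx0 : 0 ≤ x) (hx1 : x ≤ 1) :
    |x - ∑ j : Fin m, (1 / m : ℝ) * st ((j : ℕ) / m : ℝ) x| ≤ 1 / m := by
  have hm' : (0:ℝ) < m := by exact_mod_cast hm
  rw [grid_sum hm hx1]
  have h1 : (m:ℝ) * x ≤ ⌈m * x⌉₊ := Nat.le_ceil _
  have h2 : (⌈m * x⌉₊ : ℝ) < m * x + 1 := Nat.ceil_lt_add_one (by positivity)
  have e : x - (⌈m * x⌉₊ : ℝ) / m = (m * x - ⌈m * x⌉₊) / m := by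
    rw [sub_div, mul_div_cancel_left₀ _ hm'.ne']
  rw [e, abs_div, abs_of_pos hm']
  refine (div_le_div_iff_of_pos_right hm').2 ?_
  rw [abs_le]
  constructor <;> linarith

/-- the grid formula -/
noncomputable def gridFormula (m d : ℕ) (hm : 0 < m) : Formula (m ^ d) d where
  node k i := (((finFunctionFinEquiv (m := m) (n := d)).symm k i : Fin m) : ℕ) / m
  weight _ := (1 / m : ℝ) ^ d
  node_nonneg k i := by positivity
  node_lt_one k i := by
    have hm' : (0:ℝ) < m := by exact_mod_cast hm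
    rw [div_lt_one hm']
    exact_mod_cast ((finFunctionFinEquiv (m := m) (n := d)).symm k i).2
  weight_nonneg _ := by positivity

lemma grid_G {m d : ℕ} (hm : 0 < m) (x : Fin d → ℝ) :
    G (gridFormula m d hm).node (gridFormula m d hm).weight x =
      ∏ i, ∑ j : Fin m, (1 / m : ℝ) * st ((j : ℕ) / m : ℝ) (x i) := by
  classical
  rw [Finset.prod_univ_sum, Fintype.piFinset_univ]
  unfold G
  rw [← (finFunctionFinEquiv (m := m) (n := d)).sum_comp]
  refine Finset.sum_congr rfl fun j _ => ?_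
  simp only [gridFormula, Equiv.symm_apply_apply, K]
  rw [Finset.prod_mul_distrib]
  simp

lemma grid_disc {m d : ℕ} (hm : 0 < m) :
    disc (gridFormula m d hm).node (gridFormula m d hm).weight ≤ d / m := by
  have hm' : (0:ℝ) < m := by exact_mod_cast hm
  unfold disc
  have h : ∫ x in cube d, |(∏ i, x i) - G (gridFormula m d hm).node (gridFormula m d hm).weight x|
      ≤ ∫ x in cube d, (d / m : ℝ) := by
    refine setIntegral_mono_on (integrable_disc _ _) (integrable_const _)
      (measurableSet_cube d) fun x hx => ?_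
    rw [grid_G hm]
    have hx' := mem_cube.1 hx
    have hs : ∀ i, 0 ≤ ∑ j : Fin m, (1 / m : ℝ) * st ((j : ℕ) / m : ℝ) (x i) ∧
        ∑ j : Fin m, (1 / m : ℝ) * st ((j : ℕ) / m : ℝ) (x i) ≤ 1 := by
      intro i
      constructor
      · exact Finset.sum_nonneg fun j _ => mul_nonneg (by positivity) (st_nonneg _ _)
      · have : ∑ j : Fin m, (1 / m : ℝ) * st ((j : ℕ) / m : ℝ) (x i) ≤
            ∑ j : Fin m, (1 / m : ℝ) * 1 :=
          Finset.sum_le_sum fun j _ => mul_le_mul_of_nonneg_left (st_le_one _ _) (by positivity)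
        refine this.trans (le_of_eq ?_)
        simp
        field_simp
    refine (abs_prod_sub_prod_le _ _ _ hx' hs).trans ?_
    have h2 : ∑ i, |x i - ∑ j : Fin m, (1 / m : ℝ) * st ((j : ℕ) / m : ℝ) (x i)| ≤
        ∑ i : Fin d, (1 / m : ℝ) :=
      Finset.sum_le_sum fun i _ => grid_close hm (hx' i).1 (hx' i).2
    refine h2.trans (le_of_eq ?_)
    simp
    ring
  refine h.trans (le_of_eq ?_)
  simp

lemma Nplus_mem {ε : ℝ} (hε : 0 < ε) (d : ℕ) : ePlus (Nplus ε d) d ≤ ε * (1 / 2) ^ d := by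
  refine Nat.sInf_mem (s := {N : ℕ | ePlus N d ≤ ε * (1 / 2) ^ d}) ?_
  have hpos : 0 < ε * (1 / 2 : ℝ) ^ d := by positivity
  obtain ⟨m, hm⟩ := exists_nat_gt ((d : ℝ) / (ε * (1 / 2) ^ d))
  have hd : (0:ℝ) ≤ d / (ε * (1 / 2) ^ d) := by positivity
  have hm0 : 0 < m := by
    have : (0:ℝ) < m := lt_of_le_of_lt hd hm
    exact_mod_cast this
  have hm' : (0:ℝ) < m := by exact_mod_cast hm0
  refine ⟨m ^ d, ?_⟩
  refine ((ePlus_le (gridFormula m d hm0)).trans (grid_disc hm0)).trans ?_
  rw [div_le_iff₀ hm']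
  rw [div_lt_iff₀ hpos] at hm
  linarith

/-! ### The curse of dimensionality -/

theorem Nplus_lower {ε : ℝ} (hε : 0 < ε) (d : ℕ) :
    (1 - ε - (2 + ε) * Real.exp (-(d / 40000 : ℝ))) * Real.exp (d * (47 / 150 : ℝ) ^ 2)
      ≤ Nplus ε d := by
  have h1 := bound_ePlus (Nplus ε d) d
  have h2 := Nplus_mem hε d
  set α := Real.exp (-(d / 40000 : ℝ)) with hα
  have hα0 : 0 < α := Real.exp_pos _
  have h3 : (1 / 2 : ℝ) ^ d * (1 - 2 * α - (Nplus ε d) * Real.exp (-(d * (47 / 150 : ℝ) ^ 2)))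
      ≤ (1 / 2 : ℝ) ^ d * (ε * (1 + α)) := by
    refine h1.trans ?_
    calc ePlus (Nplus ε d) d * (1 + α) ≤ (ε * (1 / 2) ^ d) * (1 + α) :=
          mul_le_mul_of_nonneg_right h2 (by linarith)
      _ = _ := by ring
  have h4 := le_of_mul_le_mul_left h3 (by positivity)
  have h5 : 1 - ε - (2 + ε) * α ≤ (Nplus ε d) * Real.exp (-(d * (47 / 150 : ℝ) ^ 2)) := by
    nlinarith
  calc (1 - ε - (2 + ε) * α) * Real.exp (d * (47 / 150 : ℝ) ^ 2)
      ≤ ((Nplus ε d) * Real.exp (-(d * (47 / 150 : ℝ) ^ 2))) * Real.exp (d * (47 / 150 : ℝ) ^ 2) :=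
        mul_le_mul_of_nonneg_right h5 (Real.exp_nonneg _)
    _ = Nplus ε d := by
      rw [mul_assoc, ← Real.exp_add]; simp

/-- **The curse of dimensionality.** For every `ε ∈ (0,1)` and all sufficiently large `d`,
`N⁺(ε,d) ≥ (11/10)^d`. -/
theorem result : ∀ ε : ℝ, 0 < ε → ε < 1 →
    ∀ᶠ d : ℕ in atTop, (11 / 10 : ℝ) ^ d ≤ (Nplus ε d : ℝ) := by
  intro ε hε hε1
  -- exponential decay of the error term
  have hlim : Tendsto (fun d : ℕ => Real.exp (-(d / 40000 : ℝ))) atTop (𝓝 0) := by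
    refine Real.tendsto_exp_neg_atTop_nhds_zero.comp ?_
    exact tendsto_natCast_atTop_atTop.atTop_div_const (by norm_num)
  have h1 : ∀ᶠ d : ℕ in atTop, Real.exp (-(d / 40000 : ℝ)) < (1 - ε) / (2 * (2 + ε)) :=
    hlim.eventually_lt_const (by apply div_pos <;> linarith)
  have hr : (11 / 10 : ℝ) < Real.exp ((47 / 150 : ℝ) ^ 2) := by
    have := Real.quadratic_le_exp_of_nonneg (x := (47 / 150 : ℝ) ^ 2) (by norm_num)
    refine lt_of_lt_of_le ?_ this
    norm_num
  set r : ℝ := Real.exp ((47 / 150 : ℝ) ^ 2) / (11 / 10) with hrdef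
  have hr1 : 1 < r := by rw [hrdef, one_lt_div (by norm_num)]; exact hr
  have h2 : ∀ᶠ d : ℕ in atTop, 2 / (1 - ε) ≤ r ^ d :=
    (tendsto_pow_atTop_atTop_of_one_lt hr1).eventually_ge_atTop _
  filter_upwards [h1, h2] with d hd1 hd2
  refine le_trans ?_ (Nplus_lower hε d)
  have h3 : (1 - ε) / 2 ≤ 1 - ε - (2 + ε) * Real.exp (-(d / 40000 : ℝ)) := by
    rw [lt_div_iff₀ (by linarith)] at hd1
    linarith
  have h4 : Real.exp (d * (47 / 150 : ℝ) ^ 2) = r ^ d * (11 / 10) ^ d := by
    rw [Real.exp_nat_mul, hrdef, ← mul_pow]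
    congr 1
    field_simp
  rw [h4]
  have h5 : 1 ≤ (1 - ε) / 2 * r ^ d := by
    rw [div_le_iff₀ (by linarith)] at hd2
    linarith
  have h6 : 0 ≤ r ^ d * (11 / 10 : ℝ) ^ d := by positivity
  calc (11 / 10 : ℝ) ^ d = 1 * (11 / 10) ^ d := (one_mul _).symm
    _ ≤ ((1 - ε) / 2 * r ^ d) * (11 / 10) ^ d := mul_le_mul_of_nonneg_right h5 (by positivity)
    _ = (1 - ε) / 2 * (r ^ d * (11 / 10) ^ d) := by ring
    _ ≤ _ := mul_le_mul_of_nonneg_right h3 h6

end Pool.Agent.Results.MP_2335a4_an.Curse
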